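import Pool.Agent.W601.RP.Stm2

set_option autoImplicit false
open scoped Classical
open Filter Topology

namespace Pool.Agent.W35.RP

open Pool.Agent.W601.RP

theorem pr_single (t : ℕ) (h : ℕ → TT) : pr (Finsupp.single t 1) h = h t := by
  unfold pr
  rw [Finsupp.sum_single_index]
  · simp
  · simp

theorem ka : S_NULL → S_GS → S_KA := by
  intro hN hG A hA
  obtain ⟨hN1, -⟩ := hN
  obtain ⟨-, hphi, -, -, -⟩ := hG
  let f : A → ↥GS := fun t => ⟨phi (Finsupp.single (t : ℕ) 1), hphi _⟩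
  have hset : {g : ↥GS | (g : ↥H → TT) = 0 ∨ ∃ t ∈ A, (g : ↥H → TT) = phi (Finsupp.single t 1)}
      = insert (0 : ↥GS) (Set.range f) := by
    ext g
    constructor
    · rintro (h0 | ⟨t, ht, h1⟩)
      · left
        exact Subtype.ext h0
      · right
        exact ⟨⟨t, ht⟩, Subtype.ext h1.symm⟩
    · rintro (h0 | ⟨t, ht⟩)
      · left
        rw [h0]; rfl
      · right
        refine ⟨t, t.2, ?_⟩
        rw [← ht]
  rw [hset]
  apply Filter.Tendsto.isCompact_insert_range_of_cofinite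
  rw [Topology.IsInducing.subtypeVal.tendsto_nhds_iff]
  rw [tendsto_pi_nhds]
  intro h
  rw [Metric.tendsto_nhds]
  intro ε hε
  rw [Filter.eventually_cofinite]
  have hfin := hN1 (h : ℕ → TT) h.2 A hA ε hε
  have himg : {t : A | ¬ dist ((((fun x : ↥GS => (x : ↥H → TT)) ∘ f) t) h) (((0 : ↥GS) : ↥H → TT) h) < ε}
      ⊆ (fun t : A => (t : ℕ)) ⁻¹' {t | t ∈ A ∧ ε ≤ ‖(h : ℕ → TT) t‖} := by
    intro t ht
    refine ⟨t.2, ?_⟩
    have h2 : (((fun x : ↥GS => (x : ↥H → TT)) ∘ f) t) h = (h : ℕ → TT) t := by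
      show pr (Finsupp.single (t : ℕ) 1) (h : ℕ → TT) = _
      exact pr_single _ _
    simp only [Set.mem_setOf_eq] at ht
    rw [h2] at ht
    have h3 : dist ((h : ℕ → TT) t) (((0 : ↥GS) : ↥H → TT) h) = ‖(h : ℕ → TT) t‖ := by
      show dist ((h : ℕ → TT) t) (0 : TT) = _
      exact dist_zero_right _
    rw [h3] at ht
    exact not_lt.mp ht
  exact (hfin.preimage (Subtype.val_injective.injOn)).subset himg

end Pool.Agent.W35.RP
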